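import Mathlib

set_option autoImplicit false

namespace Pool.Agent.H15Z.SB

/-- `S` is an `α`-strong `B_h` set: whenever two `h`-tuples of elements of `S` have different
maxima, their sums differ by at least the `α`-th power of every entry. -/
def IsStrongBh (α : ℝ) (h : ℕ) (S : Set ℕ) : Prop :=
  ∀ x y : Fin h → ℕ, (∀ i, x i ∈ S) → (∀ i, y i ∈ S) →
    Finset.univ.sup x ≠ Finset.univ.sup y →
    ∀ i, max ((x i : ℝ) ^ α) ((y i : ℝ) ^ α) ≤ |(∑ j, (x j : ℝ)) - ∑ j, (y j : ℝ)|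

/-- the counting function `S(n) = |S ∩ {1, ..., n}|` -/
noncomputable def cnt (S : Set ℕ) (n : ℕ) : ℕ := (S ∩ Set.Icc 1 n).ncard

end Pool.Agent.H15Z.SB
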