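import Mathlib
import Pool.Agent.H15Z.SB.Defs

set_option autoImplicit false

namespace Pool.Agent.H15Z.SB

open Finset

lemma exists_fun_of_card {h : ℕ} (X : Multiset ℕ) (hX : X.card = h) :
    ∃ x : Fin h → ℕ, Multiset.map x Finset.univ.val = X := by
  induction X using Quotient.inductionOn with
  | h l =>
    have hl : l.length = h := by simpa using hX
    subst hl
    refine ⟨l.get, ?_⟩
    rw [Fin.univ_val_map]
    simp

lemma sep_multiset {α : ℝ} {h : ℕ} {S : Set ℕ} (hS : IsStrongBh α h S)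
    (X Y : Multiset ℕ) (hX : X.card = h) (hY : Y.card = h)
    (mX : ∀ z ∈ X, z ∈ S) (mY : ∀ z ∈ Y, z ∈ S) (z : ℕ) (hzX : z ∈ X) (hzY : z ∉ Y) :
    (z : ℝ) ^ α ≤ |(X.sum : ℝ) - (Y.sum : ℝ)| := by
  classical
  set I := X ∩ Y with hI
  set X' := X - Y with hX'
  set Y' := Y - X with hY'
  have eX : X' + I = X := Multiset.sub_add_inter X Y
  have eY : Y' + I = Y := by rw [hI, Multiset.inter_comm]; exact Multiset.sub_add_inter Y X
  have hdis : ∀ v, v ∈ X' → v ∈ Y' → False := by
    intro v h1 h2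
    rw [← Multiset.count_pos, hX', Multiset.count_sub] at h1
    rw [← Multiset.count_pos, hY', Multiset.count_sub] at h2
    omega
  have hzX' : z ∈ X' := by
    rw [← Multiset.count_pos, hX', Multiset.count_sub, Multiset.count_eq_zero.2 hzY]
    have := Multiset.count_pos.2 hzX
    omega
  have cX : X'.card + I.card = h := by rw [← hX, ← eX, Multiset.card_add]
  have cY : Y'.card + I.card = h := by rw [← hY, ← eY, Multiset.card_add]
  have hpos : 0 < X'.card := Multiset.card_pos_iff_exists_mem.2 ⟨z, hzX'⟩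
  obtain ⟨b, hb⟩ : ∃ b, b ∈ Y' := Multiset.card_pos_iff_exists_mem.1 (by omega)
  have hzb : z ≠ b := fun e => hdis z hzX' (e ▸ hb)
  have mX' : ∀ v ∈ X', v ∈ S := fun v hv => mX v (by rw [← eX]; exact Multiset.mem_add.2 (Or.inl hv))
  have mY' : ∀ v ∈ Y', v ∈ S := fun v hv => mY v (by rw [← eY]; exact Multiset.mem_add.2 (Or.inl hv))
  set s := min z b with hs
  have hsS : s ∈ S := by
    rcases min_choice z b with e | e
    · rw [hs, e]; exact mX' z hzX'
    · rw [hs, e]; exact mY' b hb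
  obtain ⟨x, hx⟩ := exists_fun_of_card (h := h) (X' + Multiset.replicate I.card s) (by simp [cX])
  obtain ⟨y, hy⟩ := exists_fun_of_card (h := h) (Y' + Multiset.replicate I.card s) (by simp [cY])
  have xm : ∀ i, x i ∈ X' ∨ x i = s := by
    intro i
    have : x i ∈ X' + Multiset.replicate I.card s := by
      rw [← hx]; exact Multiset.mem_map_of_mem _ (by simp)
    rcases Multiset.mem_add.1 this with h1 | h1
    · exact Or.inl h1
    · exact Or.inr (Multiset.eq_of_mem_replicate h1)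
  have ym : ∀ i, y i ∈ Y' ∨ y i = s := by
    intro i
    have : y i ∈ Y' + Multiset.replicate I.card s := by
      rw [← hy]; exact Multiset.mem_map_of_mem _ (by simp)
    rcases Multiset.mem_add.1 this with h1 | h1
    · exact Or.inl h1
    · exact Or.inr (Multiset.eq_of_mem_replicate h1)
  obtain ⟨i0, hi0⟩ : ∃ i, x i = z := by
    have : z ∈ Multiset.map x Finset.univ.val := by
      rw [hx]; exact Multiset.mem_add.2 (Or.inl hzX')
    obtain ⟨i, _, hi⟩ := Multiset.mem_map.1 this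
    exact ⟨i, hi⟩
  obtain ⟨i1, hi1⟩ : ∃ i, y i = b := by
    have : b ∈ Multiset.map y Finset.univ.val := by
      rw [hy]; exact Multiset.mem_add.2 (Or.inl hb)
    obtain ⟨i, _, hi⟩ := Multiset.mem_map.1 this
    exact ⟨i, hi⟩
  have hne : Finset.univ.sup x ≠ Finset.univ.sup y := by
    intro e
    obtain ⟨a, _, ha⟩ := Finset.exists_mem_eq_sup (Finset.univ : Finset (Fin h)) ⟨i0, by simp⟩ x
    obtain ⟨a', _, ha'⟩ := Finset.exists_mem_eq_sup (Finset.univ : Finset (Fin h)) ⟨i0, by simp⟩ y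
    have h1 : z ≤ Finset.univ.sup x := hi0 ▸ Finset.le_sup (f := x) (Finset.mem_univ i0)
    have h2 : b ≤ Finset.univ.sup y := hi1 ▸ Finset.le_sup (f := y) (Finset.mem_univ i1)
    have h3 : s < Finset.univ.sup x := by
      rw [← e] at h2
      rw [hs]; omega
    have h4 : x a ∈ X' := (xm a).resolve_right (by omega)
    have h5 : y a' ∈ Y' := (ym a').resolve_right (by omega)
    exact hdis (x a) h4 (by rw [← ha, e, ha']; exact h5)
  have key := hS x y (fun i => (xm i).elim (mX' _) (fun e => e ▸ hsS))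
    (fun i => (ym i).elim (mY' _) (fun e => e ▸ hsS)) hne i0
  have sx : (∑ j, (x j : ℝ)) = (X'.sum : ℝ) + I.card * s := by
    have : (∑ j, x j) = X'.sum + I.card * s := by
      rw [Finset.sum_eq_multiset_sum, hx]; simp
    exact_mod_cast this
  have sy : (∑ j, (y j : ℝ)) = (Y'.sum : ℝ) + I.card * s := by
    have : (∑ j, y j) = Y'.sum + I.card * s := by
      rw [Finset.sum_eq_multiset_sum, hy]; simp
    exact_mod_cast this
  have tX : (X.sum : ℝ) = X'.sum + I.sum := by
    have : X.sum = X'.sum + I.sum := by rw [← Multiset.sum_add, eX]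
    exact_mod_cast this
  have tY : (Y.sum : ℝ) = Y'.sum + I.sum := by
    have : Y.sum = Y'.sum + I.sum := by rw [← Multiset.sum_add, eY]
    exact_mod_cast this
  rw [sx, sy, hi0] at key
  rw [tX, tY]
  have e : (X'.sum : ℝ) + I.sum - (Y'.sum + I.sum) =
      X'.sum + I.card * s - (Y'.sum + I.card * s) := by ring
  rw [e]
  exact le_trans (le_max_left _ _) key

/-- the formal difference of two `k`-tuples -/
noncomputable def dif {k : ℕ} (p : (Fin k → ℕ) × (Fin k → ℕ)) : ℝ :=
  (∑ i, (p.1 i : ℝ)) - ∑ i, (p.2 i : ℝ)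

lemma sep_pair {α : ℝ} {k : ℕ} {S : Set ℕ} (hS : IsStrongBh α (2 * k) S)
    (p q : (Fin k → ℕ) × (Fin k → ℕ))
    (p1 : ∀ i, p.1 i ∈ S) (p2 : ∀ i, p.2 i ∈ S) (q1 : ∀ i, q.1 i ∈ S) (q2 : ∀ i, q.2 i ∈ S)
    (z : ℕ) (hz : (∃ i, p.1 i = z) ∨ (∃ i, q.2 i = z))
    (hz1 : ∀ i, q.1 i ≠ z) (hz2 : ∀ i, p.2 i ≠ z) :
    (z : ℝ) ^ α ≤ |dif p - dif q| := by
  have key := sep_multiset hS (Multiset.map p.1 Finset.univ.val + Multiset.map q.2 Finset.univ.val)
    (Multiset.map q.1 Finset.univ.val + Multiset.map p.2 Finset.univ.val)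
    (by simp; ring) (by simp; ring)
    (by
      intro v hv
      rcases Multiset.mem_add.1 hv with h | h
      · obtain ⟨i, _, rfl⟩ := Multiset.mem_map.1 h; exact p1 i
      · obtain ⟨i, _, rfl⟩ := Multiset.mem_map.1 h; exact q2 i)
    (by
      intro v hv
      rcases Multiset.mem_add.1 hv with h | h
      · obtain ⟨i, _, rfl⟩ := Multiset.mem_map.1 h; exact q1 i
      · obtain ⟨i, _, rfl⟩ := Multiset.mem_map.1 h; exact p2 i)
    z
    (by
      rcases hz with ⟨i, rfl⟩ | ⟨i, rfl⟩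
      · exact Multiset.mem_add.2 (Or.inl (Multiset.mem_map_of_mem _ (by simp)))
      · exact Multiset.mem_add.2 (Or.inr (Multiset.mem_map_of_mem _ (by simp))))
    (by
      intro hv
      rcases Multiset.mem_add.1 hv with h | h
      · obtain ⟨i, _, hi⟩ := Multiset.mem_map.1 h; exact hz1 i hi
      · obtain ⟨i, _, hi⟩ := Multiset.mem_map.1 h; exact hz2 i hi)
  rw [Multiset.sum_add, Multiset.sum_add, ← Finset.sum_eq_multiset_sum,
    ← Finset.sum_eq_multiset_sum, ← Finset.sum_eq_multiset_sum,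
    ← Finset.sum_eq_multiset_sum] at key
  push_cast at key
  have e : dif p - dif q = (∑ i, (p.1 i : ℝ)) + ∑ i, (q.2 i : ℝ) -
      ((∑ i, (q.1 i : ℝ)) + ∑ i, (p.2 i : ℝ)) := by
    unfold dif; ring
  rw [e]; exact key

open MeasureTheory in
lemma packing {ι : Type*} (I : Finset ι) (p r : ι → ℝ) (N R : ℝ) (hN : 0 ≤ N) (hR : 0 ≤ R)
    (hp : ∀ i ∈ I, |p i| ≤ N) (hr0 : ∀ i ∈ I, 0 ≤ r i) (hr : ∀ i ∈ I, r i ≤ R)
    (hsep : ∀ i ∈ I, ∀ j ∈ I, i ≠ j → r i ≤ |p i - p j|) :
    ∑ i ∈ I, r i ≤ 2 * N + R := by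
  have hdis : (I : Set ι).PairwiseDisjoint (fun i => Set.Ico (p i) (p i + r i)) := by
    intro i hi j hj hij
    rw [Function.onFun, Set.disjoint_left]
    intro x hx hx'
    have h1 := hsep i hi j hj hij
    have h2 := hsep j hj i hi (Ne.symm hij)
    rw [abs_sub_comm] at h2
    obtain ⟨a1, a2⟩ := hx
    obtain ⟨b1, b2⟩ := hx'
    rcases abs_cases (p i - p j) with ⟨e, _⟩ | ⟨e, _⟩ <;> linarith
  have hm := measure_biUnion_finset (μ := volume) hdis (fun i _ => measurableSet_Ico)
  have hsub : (⋃ i ∈ I, Set.Ico (p i) (p i + r i)) ⊆ Set.Icc (-N) (N + R) := by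
    intro x hx
    simp only [Set.mem_iUnion] at hx
    obtain ⟨i, hi, h1, h2⟩ := hx
    have := abs_le.1 (hp i hi)
    have := hr i hi
    constructor <;> linarith
  have hle := measure_mono (μ := volume) hsub
  rw [hm, Real.volume_Icc] at hle
  simp only [Real.volume_Ico, add_sub_cancel_left] at hle
  rw [← ENNReal.ofReal_sum_of_nonneg hr0, ENNReal.ofReal_le_ofReal_iff (by linarith)] at hle
  linarith

lemma exists_parts (B : Finset ℕ) (k m : ℕ) (h : k * m ≤ B.card) :
    ∃ P : Fin k → Finset ℕ, (∀ i, P i ⊆ B) ∧ (∀ i, (P i).card = m) ∧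
      ∀ i j, ∀ z, z ∈ P i → z ∈ P j → i = j := by
  obtain ⟨f, hf⟩ := Function.Embedding.exists_of_card_le_finset (α := Fin k × Fin m) (s := B)
    (by simpa using h)
  refine ⟨fun i => Finset.univ.image (fun r => f (i, r)), ?_, ?_, ?_⟩
  · intro i z hz
    obtain ⟨r, _, rfl⟩ := Finset.mem_image.1 hz
    exact hf ⟨_, rfl⟩
  · intro i
    rw [Finset.card_image_of_injective]
    · simp
    · intro a b hab
      have := f.injective hab
      simpa using this
  · intro i j z hi hj
    obtain ⟨r, _, rfl⟩ := Finset.mem_image.1 hi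
    obtain ⟨r', _, e⟩ := Finset.mem_image.1 hj
    have := f.injective e
    exact (Prod.ext_iff.1 this).1.symm

/-- nondegenerate pairs of transversals with small difference -/
noncomputable def good {k : ℕ} (P : Fin k → Finset ℕ) (N : ℝ) :
    Finset ((Fin k → ℕ) × (Fin k → ℕ)) := by
  classical
  exact (Fintype.piFinset P ×ˢ Fintype.piFinset P).filter
    (fun p => (∀ i, p.1 i ≠ p.2 i) ∧ |dif p| ≤ N)

lemma mem_good {k : ℕ} {P : Fin k → Finset ℕ} {N : ℝ} {p : (Fin k → ℕ) × (Fin k → ℕ)} :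
    p ∈ good P N ↔ ((∀ i, p.1 i ∈ P i) ∧ ∀ i, p.2 i ∈ P i) ∧ (∀ i, p.1 i ≠ p.2 i) ∧ |dif p| ≤ N := by
  unfold good
  simp [Fintype.mem_piFinset]

lemma degenerate {k m : ℕ} (P : Fin k → Finset ℕ) (hP : ∀ i, (P i).card = m) (i : Fin k) :
    ((Fintype.piFinset P ×ˢ Fintype.piFinset P).filter (fun p => p.1 i = p.2 i)).card * m ≤
      m ^ (2 * k) := by
  classical
  have hc : (Fintype.piFinset P ×ˢ Fintype.piFinset P).card = m ^ (2 * k) := by
    rw [Finset.card_product, Fintype.card_piFinset]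
    simp [hP]; ring
  rw [← hc]
  conv_lhs => rw [← hP i, ← Finset.card_product]
  refine Finset.card_le_card_of_injOn (fun w => (w.1.1, Function.update w.1.2 i w.2)) ?_ ?_
  · intro w hw
    simp only [Finset.coe_product, Finset.coe_filter, Finset.mem_product, Set.mem_prod,
      Set.mem_setOf_eq, Finset.mem_coe, Fintype.mem_piFinset] at hw ⊢
    refine ⟨hw.1.1.1, fun j => ?_⟩
    by_cases hj : j = i
    · subst hj; simpa using hw.2
    · rw [Function.update_of_ne hj]; exact hw.1.1.2 j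
  · intro w hw w' hw' e
    simp only [Finset.coe_product, Finset.coe_filter, Finset.mem_product, Set.mem_prod,
      Set.mem_setOf_eq, Finset.mem_coe, Fintype.mem_piFinset] at hw hw'
    have e1 : w.1.1 = w'.1.1 := (Prod.ext_iff.1 e).1
    have e2 : Function.update w.1.2 i w.2 = Function.update w'.1.2 i w'.2 := (Prod.ext_iff.1 e).2
    have e3 : w.2 = w'.2 := by simpa using congrFun e2 i
    have e4 : w.1.2 = w'.1.2 := by
      funext j
      by_cases hj : j = i
      · subst hj; rw [← hw.1.2, ← hw'.1.2, e1]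
      · have := congrFun e2 j
        rwa [Function.update_of_ne hj, Function.update_of_ne hj] at this
    exact Prod.ext (Prod.ext e1 e4) e3

lemma block {k m t N q : ℕ} (P : Fin k → Finset ℕ) (hP : ∀ i, (P i).card = m)
    (ht : ∀ i, ∀ z ∈ P i, z ≤ t) (hN : 0 < N) (hq : k * t < q * N) :
    m ^ (2 * k) * m ≤ q * ((good P (N : ℝ)).card * m + k * m ^ (2 * k)) := by
  classical
  set A := Fintype.piFinset P with hA
  have hcA : A.card = m ^ k := by rw [hA, Fintype.card_piFinset]; simp [hP]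
  let g : (Fin k → ℕ) → ℕ := fun a => (∑ i, a i) / N
  have hg : ∀ a ∈ A, g a ∈ Finset.range q := by
    intro a ha
    rw [Finset.mem_range]
    have : ∑ i, a i ≤ k * t := by
      have := Finset.sum_le_card_nsmul Finset.univ a t
        (fun i _ => ht i _ (Fintype.mem_piFinset.1 ha i))
      simpa using this
    exact (Nat.div_lt_iff_lt_mul hN).2 (by omega)
  set E := (A ×ˢ A).filter (fun p => g p.1 = g p.2) with hE
  have h1 : A.card = ∑ v ∈ Finset.range q, (A.filter (fun a => g a = v)).card :=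
    Finset.card_eq_sum_card_fiberwise hg
  have h2 : E.card = ∑ v ∈ Finset.range q, (A.filter (fun a => g a = v)).card ^ 2 := by
    rw [Finset.card_eq_sum_card_fiberwise (f := fun p => g p.1) (t := Finset.range q)
      (fun p hp => hg _ (Finset.mem_product.1 (Finset.mem_filter.1 hp).1).1)]
    refine Finset.sum_congr rfl (fun v _ => ?_)
    rw [sq, ← Finset.card_product]
    congr 1
    ext p
    simp only [hE, Finset.mem_filter, Finset.mem_product]
    constructor
    · rintro ⟨⟨⟨a, b⟩, c⟩, d⟩; exact ⟨⟨a, d⟩, b, c ▸ d⟩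
    · rintro ⟨⟨a, b⟩, c, d⟩; exact ⟨⟨⟨a, c⟩, b.trans d.symm⟩, b⟩
  have h3 : m ^ (2 * k) ≤ q * E.card := by
    have := sq_sum_le_card_mul_sum_sq (s := Finset.range q)
      (f := fun v => (A.filter (fun a => g a = v)).card)
    rw [← h1, ← h2, hcA, Finset.card_range, ← pow_mul, mul_comm k 2] at this
    exact this
  have h4 : E ⊆ good P (N : ℝ) ∪
      Finset.univ.biUnion (fun i => (A ×ˢ A).filter (fun p => p.1 i = p.2 i)) := by
    intro p hp
    obtain ⟨hp1, hp2⟩ := Finset.mem_filter.1 hp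
    by_cases hd : ∀ i, p.1 i ≠ p.2 i
    · refine Finset.mem_union_left _ (mem_good.2 ⟨⟨?_, ?_⟩, hd, ?_⟩)
      · exact Fintype.mem_piFinset.1 (Finset.mem_product.1 hp1).1
      · exact Fintype.mem_piFinset.1 (Finset.mem_product.1 hp1).2
      · have a1 := Nat.div_add_mod (∑ i, p.1 i) N
        have a2 := Nat.div_add_mod (∑ i, p.2 i) N
        have a3 := Nat.mod_lt (∑ i, p.1 i) hN
        have a4 := Nat.mod_lt (∑ i, p.2 i) hN
        have a5 : (∑ i, p.1 i) / N = (∑ i, p.2 i) / N := hp2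
        rw [a5] at a1
        have b1 : ∑ i, p.1 i ≤ ∑ i, p.2 i + N := by omega
        have b2 : ∑ i, p.2 i ≤ ∑ i, p.1 i + N := by omega
        have c1 : (∑ i, (p.1 i : ℝ)) ≤ ∑ i, (p.2 i : ℝ) + N := by exact_mod_cast b1
        have c2 : (∑ i, (p.2 i : ℝ)) ≤ ∑ i, (p.1 i : ℝ) + N := by exact_mod_cast b2
        unfold dif
        rw [abs_le]; constructor <;> linarith
    · push Not at hd
      obtain ⟨i, hi⟩ := hd
      exact Finset.mem_union_right _ (Finset.mem_biUnion.2
        ⟨i, Finset.mem_univ _, Finset.mem_filter.2 ⟨hp1, hi⟩⟩)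
  have h5 : E.card * m ≤ (good P (N : ℝ)).card * m + k * m ^ (2 * k) := by
    have a1 := (Finset.card_le_card h4).trans (Finset.card_union_le _ _)
    have a2 := Finset.card_biUnion_le (s := (Finset.univ : Finset (Fin k)))
      (t := fun i => (A ×ˢ A).filter (fun p => p.1 i = p.2 i))
    have a3 : (∑ i, ((A ×ˢ A).filter (fun p => p.1 i = p.2 i)).card) * m ≤ k * m ^ (2 * k) := by
      rw [Finset.sum_mul]
      have := Finset.sum_le_card_nsmul Finset.univ
        (fun i => ((A ×ˢ A).filter (fun p => p.1 i = p.2 i)).card * m) (m ^ (2 * k))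
        (fun i _ => degenerate P hP i)
      simpa using this
    calc E.card * m ≤ ((good P (N : ℝ)).card +
          ∑ i, ((A ×ˢ A).filter (fun p => p.1 i = p.2 i)).card) * m :=
          Nat.mul_le_mul_right _ (a1.trans (Nat.add_le_add_left a2 _))
      _ ≤ _ := by rw [add_mul]; exact Nat.add_le_add_left a3 _
  calc m ^ (2 * k) * m ≤ q * E.card * m := Nat.mul_le_mul_right _ h3
    _ = q * (E.card * m) := by ring
    _ ≤ _ := Nat.mul_le_mul_left _ h5

end Pool.Agent.H15Z.SB
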