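import Mathlib
import Pool.Agent.H15Z.SB.Basic

set_option autoImplicit false

namespace Pool.Agent.H15Z.SB

open Finset

lemma block2 {k m t N q : ℕ} (P : Fin k → Finset ℕ) (hP : ∀ i, (P i).card = m)
    (ht : ∀ i, ∀ z ∈ P i, z ≤ t) (hN : 0 < N) (hq : k * t < q * N) (hm : 0 < m)
    (hmq : 2 * q * k ≤ m) : m ^ (2 * k) ≤ 2 * q * (good P (N : ℝ)).card := by
  have h := block P hP ht hN hq
  set M := m ^ (2 * k)
  set G := (good P (N : ℝ)).card
  have h1 : 2 * q * k * M ≤ m * M := Nat.mul_le_mul_right _ hmq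
  have h2 : M * m ≤ (2 * q * G) * m := by nlinarith
  exact Nat.le_of_mul_le_mul_right h2 hm

lemma multi {α : ℝ} (hα : 0 ≤ α) {k : ℕ} (hk : 0 < k) {S : Set ℕ} (hS : IsStrongBh α (2 * k) S)
    (J : Finset ℕ) (P : ℕ → Fin k → Finset ℕ) (u : ℕ → ℝ) (N R : ℝ) (hN : 0 ≤ N) (hR : 0 ≤ R)
    (hu0 : ∀ j ∈ J, 0 ≤ u j) (huR : ∀ j ∈ J, u j ^ α ≤ R)
    (hu : ∀ j ∈ J, ∀ i, ∀ z ∈ P j i, u j ≤ z) (hPS : ∀ j ∈ J, ∀ i, ∀ z ∈ P j i, z ∈ S)
    (hdis : ∀ j ∈ J, ∀ l ∈ J, ∀ i i' z, z ∈ P j i → z ∈ P l i' → j = l ∧ i = i') :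
    ∑ j ∈ J, ((good (P j) N).card : ℝ) * u j ^ α ≤ 2 * N + R := by
  classical
  have key := packing (J.sigma (fun j => good (P j) N)) (fun w => dif w.2) (fun w => u w.1 ^ α)
    N R hN hR
    (fun w hw => (mem_good.1 (Finset.mem_sigma.1 hw).2).2.2)
    (fun w hw => Real.rpow_nonneg (hu0 _ (Finset.mem_sigma.1 hw).1) _)
    (fun w hw => huR _ (Finset.mem_sigma.1 hw).1)
    (by
      rintro ⟨j, p⟩ hw ⟨l, q⟩ hw' hne
      obtain ⟨hj, hp⟩ := Finset.mem_sigma.1 hw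
      obtain ⟨hl, hq⟩ := Finset.mem_sigma.1 hw'
      simp only at hj hl hp hq ⊢
      obtain ⟨⟨p1, p2⟩, p3, -⟩ := mem_good.1 hp
      obtain ⟨⟨q1, q2⟩, q3, -⟩ := mem_good.1 hq
      have main : ∀ z : ℕ, u j ≤ z → ((∃ i, p.1 i = z) ∨ (∃ i, q.2 i = z)) →
          (∀ i, q.1 i ≠ z) → (∀ i, p.2 i ≠ z) → u j ^ α ≤ |dif p - dif q| := by
        intro z hz h1 h2 h3
        exact (Real.rpow_le_rpow (hu0 j hj) hz hα).trans
          (sep_pair hS p q (fun i => hPS j hj i _ (p1 i)) (fun i => hPS j hj i _ (p2 i))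
            (fun i => hPS l hl i _ (q1 i)) (fun i => hPS l hl i _ (q2 i)) z h1 h2 h3)
      by_cases hjl : j = l
      · subst hjl
        have hpq : p ≠ q := fun e => hne (by rw [e])
        by_cases h1 : p.1 = q.1
        · have h2 : p.2 ≠ q.2 := fun e => hpq (Prod.ext h1 e)
          obtain ⟨i, hi⟩ := Function.ne_iff.1 h2
          refine main (q.2 i) (hu j hj i _ (q2 i)) (Or.inr ⟨i, rfl⟩) ?_ ?_
          · intro i' e
            obtain ⟨-, rfl⟩ := hdis j hj j hj i' i _ (q1 i') (e ▸ q2 i)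
            exact q3 _ e
          · intro i' e
            obtain ⟨-, rfl⟩ := hdis j hj j hj i' i _ (p2 i') (e ▸ q2 i)
            exact hi e
        · obtain ⟨i, hi⟩ := Function.ne_iff.1 h1
          refine main (p.1 i) (hu j hj i _ (p1 i)) (Or.inl ⟨i, rfl⟩) ?_ ?_
          · intro i' e
            obtain ⟨-, rfl⟩ := hdis j hj j hj i' i _ (q1 i') (e ▸ p1 i)
            exact hi e.symm
          · intro i' e
            obtain ⟨-, rfl⟩ := hdis j hj j hj i' i _ (p2 i') (e ▸ p1 i)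
            exact p3 _ e.symm
      · let i : Fin k := ⟨0, hk⟩
        refine main (p.1 i) (hu j hj i _ (p1 i)) (Or.inl ⟨i, rfl⟩) ?_ ?_
        · intro i' e
          exact hjl (hdis j hj l hl i i' _ (p1 i) (e ▸ q1 i')).1
        · intro i' e
          obtain ⟨-, rfl⟩ := hdis j hj j hj i' i _ (p2 i') (e ▸ p1 i)
          exact p3 _ e.symm)
  rw [Finset.sum_sigma] at key
  simpa using key

open Classical in
/-- the elements of `S` in `(a, b]` -/
noncomputable def seg (S : Set ℕ) (a b : ℕ) : Finset ℕ := (Finset.Ioc a b).filter (· ∈ S)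

lemma mem_seg {S : Set ℕ} {a b z : ℕ} : z ∈ seg S a b ↔ (a < z ∧ z ≤ b) ∧ z ∈ S := by
  unfold seg; simp

lemma cnt_eq (S : Set ℕ) (n : ℕ) : cnt S n = (seg S 0 n).card := by
  unfold cnt
  rw [← Set.ncard_coe_finset]
  congr 1
  ext z
  simp only [Set.mem_inter_iff, Set.mem_Icc, Finset.mem_coe, mem_seg]
  constructor
  · rintro ⟨a, b, c⟩; exact ⟨⟨b, c⟩, a⟩
  · rintro ⟨⟨b, c⟩, a⟩; exact ⟨a, b, c⟩

lemma cnt_le (S : Set ℕ) (a b : ℕ) : cnt S b ≤ cnt S a + (seg S a b).card := by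
  classical
  rw [cnt_eq, cnt_eq]
  refine le_trans (Finset.card_le_card ?_) (Finset.card_union_le _ _)
  intro z hz
  rw [Finset.mem_union, mem_seg, mem_seg]
  obtain ⟨⟨h1, h2⟩, h3⟩ := mem_seg.1 hz
  by_cases h : z ≤ a
  · exact Or.inl ⟨⟨h1, h⟩, h3⟩
  · exact Or.inr ⟨⟨by omega, h2⟩, h3⟩

lemma pow_beta {α : ℝ} {k : ℕ} (hk : 0 < k) {x : ℝ} (hx : 0 < x) :
    (x ^ ((1 - α) / ((2 * k : ℕ) : ℝ))) ^ (2 * k) * x ^ α = x := by
  rw [← Real.rpow_natCast, ← Real.rpow_mul hx.le, ← Real.rpow_add hx]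
  have : ((2 * k : ℕ) : ℝ) ≠ 0 := by positivity
  rw [div_mul_cancel₀ _ this]
  simp

lemma seg_bound {α : ℝ} (hα : 0 ≤ α) (hα1 : α < 1) {k : ℕ} (hk : 0 < k) {S : Set ℕ}
    (hS : IsStrongBh α (2 * k) S) (n : ℕ) (hn : 1 ≤ n) :
    ((seg S (n / 2) n).card : ℝ) ≤ k * (8 * k + 13) * (n : ℝ) ^ ((1 - α) / ((2 * k : ℕ) : ℝ)) := by
  set β := (1 - α) / ((2 * k : ℕ) : ℝ) with hβ
  have hβ0 : 0 ≤ β := div_nonneg (by linarith) (by positivity)
  have hn1 : (1 : ℝ) ≤ n := by exact_mod_cast hn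
  have hnb : 1 ≤ (n : ℝ) ^ β := Real.one_le_rpow hn1 hβ0
  have hk1 : (1 : ℝ) ≤ k := by exact_mod_cast hk
  set B := seg S (n / 2) n with hB
  set m := B.card / k with hm
  have hBm : B.card < k * (m + 1) := Nat.lt_mul_div_succ _ hk
  have hBm' : (B.card : ℝ) ≤ k * (m + 1) := by exact_mod_cast hBm.le
  suffices h : (m : ℝ) ≤ (8 * k + 12) * (n : ℝ) ^ β by
    have : (m : ℝ) + 1 ≤ (8 * k + 13) * (n : ℝ) ^ β := by linarith
    calc (B.card : ℝ) ≤ k * (m + 1) := hBm'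
      _ ≤ k * ((8 * k + 13) * (n : ℝ) ^ β) := by gcongr
      _ = _ := by ring
  by_cases hmk : m < 2 * k
  · have : (m : ℝ) ≤ 2 * k := by exact_mod_cast hmk.le
    nlinarith
  push Not at hmk
  obtain ⟨P, hPB, hPc, hPd⟩ := exists_parts B k m (Nat.mul_div_le _ _)
  have b2 := block2 (t := n) (N := k * n + 1) (q := 1) P hPc
    (fun i z hz => (mem_seg.1 (hPB i hz)).1.2) (by omega) (by omega) (by omega) (by omega)
  have hna : (n : ℝ) ^ α ≤ n := by
    calc (n : ℝ) ^ α ≤ (n : ℝ) ^ (1 : ℝ) := Real.rpow_le_rpow_of_exponent_le hn1 hα1.le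
      _ = n := Real.rpow_one _
  have hu : ((n : ℝ) / 2) ^ α ≤ (n : ℝ) ^ α := Real.rpow_le_rpow (by positivity) (by linarith) hα
  have mu := multi hα hk hS {0} (fun _ => P) (fun _ => (n : ℝ) / 2) ((k * n + 1 : ℕ) : ℝ) n
    (by positivity) (by positivity) (fun _ _ => by positivity) (fun _ _ => hu.trans hna)
    (by
      intro _ _ i z hz
      have h1 := (mem_seg.1 (hPB i hz)).1.1
      have h2 : n ≤ 2 * z := by omega
      have h3 : (n : ℝ) ≤ 2 * z := by exact_mod_cast h2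
      linarith)
    (fun _ _ i z hz => (mem_seg.1 (hPB i hz)).2)
    (by
      intro j hj l hl i i' z h1 h2
      rw [Finset.mem_singleton] at hj hl
      exact ⟨hj.trans hl.symm, hPd i i' z h1 h2⟩)
  rw [Finset.sum_singleton] at mu
  set G := (good P ((k * n + 1 : ℕ) : ℝ)).card
  have b3 : (m : ℝ) ^ (2 * k) ≤ 2 * G := by exact_mod_cast (by simpa using b2)
  have hu2 : (n : ℝ) ^ α ≤ 2 * ((n : ℝ) / 2) ^ α := by
    rw [Real.div_rpow (by positivity) (by positivity)]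
    have h2 : (2 : ℝ) ^ α ≤ 2 := by
      calc (2 : ℝ) ^ α ≤ (2 : ℝ) ^ (1 : ℝ) := Real.rpow_le_rpow_of_exponent_le (by norm_num) hα1.le
        _ = 2 := Real.rpow_one _
    have h3 : (0 : ℝ) < 2 ^ α := by positivity
    rw [mul_div_assoc', le_div_iff₀ h3]
    have : (0 : ℝ) ≤ (n : ℝ) ^ α := by positivity
    nlinarith
  have hpb := pow_beta (α := α) hk (x := (n : ℝ)) (by linarith)
  rw [← hβ] at hpb
  have hnα : (0 : ℝ) < (n : ℝ) ^ α := by positivity
  have h5 : (m : ℝ) ^ (2 * k) * (n : ℝ) ^ α ≤ (8 * k + 12) * n := by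
    push_cast at mu
    have hG : (0 : ℝ) ≤ G := by positivity
    calc (m : ℝ) ^ (2 * k) * (n : ℝ) ^ α ≤ (2 * G) * (2 * ((n : ℝ) / 2) ^ α) := by gcongr
      _ = 4 * (G * ((n : ℝ) / 2) ^ α) := by ring
      _ ≤ 4 * (2 * (k * n + 1) + n) := by gcongr
      _ ≤ (8 * k + 12) * n := by nlinarith
  have h6 : (m : ℝ) ^ (2 * k) ≤ (8 * k + 12) * ((n : ℝ) ^ β) ^ (2 * k) := by
    refine le_of_mul_le_mul_right ?_ hnα
    rw [mul_assoc, hpb]; exact h5
  have h7 : (m : ℝ) ^ (2 * k) ≤ ((8 * k + 12) * (n : ℝ) ^ β) ^ (2 * k) := by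
    rw [mul_pow]
    refine h6.trans (mul_le_mul_of_nonneg_right ?_ (by positivity))
    exact le_self_pow₀ (by linarith) (by omega)
  exact (pow_le_pow_iff_left₀ (by positivity) (by positivity) (by omega)).1 h7

lemma cnt_bound {α : ℝ} (hα : 0 ≤ α) (hα1 : α < 1) {k : ℕ} (hk : 0 < k) {S : Set ℕ}
    (hS : IsStrongBh α (2 * k) S) :
    ∃ D : ℝ, 0 < D ∧ ∀ n : ℕ, (cnt S n : ℝ) ≤ D * (n : ℝ) ^ ((1 - α) / ((2 * k : ℕ) : ℝ)) := by
  set β := (1 - α) / ((2 * k : ℕ) : ℝ) with hβ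
  have hβ0 : 0 < β := div_pos (by linarith) (by positivity)
  set C : ℝ := k * (8 * k + 13) with hC
  have hC0 : 0 < C := by positivity
  set θ : ℝ := (1 / 2 : ℝ) ^ β with hθ
  have hθ1 : θ < 1 := Real.rpow_lt_one (by norm_num) (by norm_num) hβ0
  have hθ0 : 0 < 1 - θ := by linarith
  refine ⟨C / (1 - θ), by positivity, fun n => ?_⟩
  induction n using Nat.strong_induction_on with
  | _ n ih =>
    rcases Nat.eq_zero_or_pos n with rfl | hn
    · rw [cnt_eq]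
      have : seg S 0 0 = ∅ := by
        ext z; simp only [mem_seg, Finset.notMem_empty, iff_false]; omega
      rw [this]
      simp only [Finset.card_empty, Nat.cast_zero]
      positivity
    have h1 := ih (n / 2) (by omega)
    have h2 := seg_bound hα hα1 hk hS n hn
    rw [← hβ, ← hC] at h2
    have h3 : (cnt S n : ℝ) ≤ cnt S (n / 2) + (seg S (n / 2) n).card := by
      exact_mod_cast cnt_le S (n / 2) n
    have h4 : (((n / 2 : ℕ) : ℝ)) ^ β ≤ θ * (n : ℝ) ^ β := by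
      rw [hθ, ← Real.mul_rpow (by norm_num) (by positivity)]
      refine Real.rpow_le_rpow (by positivity) ?_ hβ0.le
      have : ((n / 2 : ℕ) : ℝ) ≤ (n : ℝ) / (2 : ℕ) := Nat.cast_div_le
      push_cast at this
      linarith
    have h5 : C / (1 - θ) * ((n / 2 : ℕ) : ℝ) ^ β ≤ C / (1 - θ) * (θ * (n : ℝ) ^ β) := by gcongr
    have h6 : C / (1 - θ) * (θ * (n : ℝ) ^ β) + C * (n : ℝ) ^ β = C / (1 - θ) * (n : ℝ) ^ β := by
      field_simp; ring
    linarith

theorem main {α : ℝ} (hα : 0 ≤ α) (hα1 : α < 1) {k : ℕ} (hk : 0 < k) {S : Set ℕ}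
    (hS : IsStrongBh α (2 * k) S) (c : ℝ) (hc : 0 < c) :
    ∃ᶠ n : ℕ in Filter.atTop, (cnt S n : ℝ) < c * (n : ℝ) ^ ((1 - α) / ((2 * k : ℕ) : ℝ)) := by
  classical
  obtain ⟨D, hD, hDb⟩ := cnt_bound hα hα1 hk hS
  set β := (1 - α) / ((2 * k : ℕ) : ℝ) with hβ
  have hβ0 : 0 < β := div_pos (by linarith) (by positivity)
  have hk1 : (1 : ℝ) ≤ k := by exact_mod_cast hk
  have hβ1 : β + α ≤ 1 := by
    have : β ≤ 1 - α := by
      rw [hβ]
      refine div_le_self (by linarith) ?_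
      push_cast; linarith
    linarith
  by_contra hcon
  rw [Filter.not_frequently] at hcon
  obtain ⟨n0, hn0⟩ := Filter.eventually_atTop.1 hcon
  have hlow : ∀ n, n0 ≤ n → c * (n : ℝ) ^ β ≤ cnt S n := fun n hn => not_lt.1 (hn0 n hn)
  have htend : Filter.Tendsto (fun n : ℕ => (n : ℝ) ^ β) Filter.atTop Filter.atTop :=
    (tendsto_rpow_atTop hβ0).comp tendsto_natCast_atTop_atTop
  obtain ⟨K, hK1, hK2⟩ := ((htend.eventually_ge_atTop (2 * D / c)).and
    (Filter.eventually_ge_atTop 1)).exists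
  have hKr : (1 : ℝ) ≤ K := by exact_mod_cast hK2
  set e : ℝ := c / (4 * k) with he
  have he0 : 0 < e := by positivity
  set δ : ℝ := e ^ (2 * k) / (K * (2 * (k + 1))) with hδ
  have hδ0 : 0 < δ := by positivity
  obtain ⟨J, hJ⟩ := exists_nat_gt (3 / δ)
  obtain ⟨N, ⟨⟨hN1, hN2⟩, hN3⟩, hN4⟩ := ((((htend.eventually_ge_atTop ((K : ℝ) ^ J)).and
    (htend.eventually_ge_atTop ((2 * (k * K ^ J + 1) * k) / e))).and
    (Filter.eventually_ge_atTop n0)).and (Filter.eventually_ge_atTop 1)).exists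
  have hNr : (1 : ℝ) ≤ N := by exact_mod_cast hN4
  let t : ℕ → ℕ := fun j => N * K ^ j
  have tmono : ∀ i j, i ≤ j → t i ≤ t j := fun i j hij =>
    Nat.mul_le_mul_left _ (Nat.pow_le_pow_right hK2 hij)
  have tN : ∀ j, N ≤ t j := fun j => by simpa [t] using tmono 0 j (Nat.zero_le _)
  let B : ℕ → Finset ℕ := fun j => seg S (t j) (t (j + 1))
  let m : ℕ → ℕ := fun j => (B j).card / k
  have hparts := fun j => exists_parts (B j) k (m j) (Nat.mul_div_le _ _)
  choose P hPB hPc hPd using hparts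
  -- size of the blocks
  have hm : ∀ j, j < J → e * (t (j + 1) : ℝ) ^ β ≤ m j ∧ 2 * (k * K ^ (j + 1) + 1) * k ≤ m j := by
    intro j hj
    have a1 := hlow (t (j + 1)) (hN3.trans (tN _))
    have a2 := hDb (t j)
    have a3 : (cnt S (t (j + 1)) : ℝ) ≤ cnt S (t j) + (B j).card := by
      exact_mod_cast cnt_le S (t j) (t (j + 1))
    have a4 : (t (j + 1) : ℝ) ^ β = (K : ℝ) ^ β * (t j : ℝ) ^ β := by
      rw [← Real.mul_rpow (by positivity) (by positivity)]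
      congr 1
      simp only [t]; push_cast; ring
    have a5 : D * (t j : ℝ) ^ β ≤ c / 2 * (t (j + 1) : ℝ) ^ β := by
      rw [a4, ← mul_assoc]
      refine mul_le_mul_of_nonneg_right ?_ (by positivity)
      rw [div_le_iff₀ hc] at hK1
      linarith
    have a6 : ((B j).card : ℝ) ≤ k * (m j + 1) := by
      exact_mod_cast (Nat.lt_mul_div_succ (B j).card hk).le
    have a7 : (N : ℝ) ^ β ≤ (t (j + 1) : ℝ) ^ β :=
      Real.rpow_le_rpow (by positivity) (by exact_mod_cast tN _) hβ0.le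
    have a8 : (2 * (k * K ^ J + 1) * k : ℝ) ≤ e * (t (j + 1) : ℝ) ^ β := by
      rw [div_le_iff₀ he0] at hN2
      nlinarith
    have a9 : (2 * (k * K ^ (j + 1) + 1) * k : ℝ) ≤ 2 * (k * K ^ J + 1) * k := by
      have : (K : ℝ) ^ (j + 1) ≤ (K : ℝ) ^ J := pow_le_pow_right₀ hKr hj
      gcongr
    have a10 : (1 : ℝ) ≤ 2 * (k * K ^ J + 1) * k := by
      have : (0 : ℝ) ≤ k * K ^ J := by positivity
      nlinarith
    have a11 : 2 * (e * (t (j + 1) : ℝ) ^ β) ≤ m j + 1 := by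
      have b1 : c / 2 * (t (j + 1) : ℝ) ^ β ≤ k * (m j + 1) := by linarith
      have b2 : c / 2 * (t (j + 1) : ℝ) ^ β = k * (2 * (e * (t (j + 1) : ℝ) ^ β)) := by
        rw [he]; field_simp; ring
      rw [b2] at b1
      exact le_of_mul_le_mul_left b1 (by positivity)
    have a12 : e * (t (j + 1) : ℝ) ^ β ≤ m j := by linarith
    refine ⟨a12, ?_⟩
    exact_mod_cast a9.trans (a8.trans a12)
  have hcontrib : ∀ j ∈ Finset.range J,
      δ * N ≤ ((good (P j) (N : ℝ)).card : ℝ) * (t j : ℝ) ^ α := by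
    intro j hj
    obtain ⟨m1, m2⟩ := hm j (Finset.mem_range.1 hj)
    have hq : k * t (j + 1) < (k * K ^ (j + 1) + 1) * N := by
      simp only [t]; nlinarith
    have b2 := block2 (t := t (j + 1)) (N := N) (q := k * K ^ (j + 1) + 1) (P j) (hPc j)
      (fun i z hz => (mem_seg.1 (hPB j i hz)).1.2) hN4 hq
      (lt_of_lt_of_le (by positivity) m2) m2
    set G := (good (P j) (N : ℝ)).card
    have b3 : (m j : ℝ) ^ (2 * k) ≤ 2 * (k * K ^ (j + 1) + 1) * G := by exact_mod_cast b2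
    have tpos : (0 : ℝ) < t (j + 1) := by
      have : (N : ℝ) ≤ t (j + 1) := by exact_mod_cast tN _
      linarith
    have hpb := pow_beta (α := α) hk tpos
    rw [← hβ] at hpb
    have b4 : (e * (t (j + 1) : ℝ) ^ β) ^ (2 * k) ≤ (m j : ℝ) ^ (2 * k) :=
      pow_le_pow_left₀ (by positivity) m1 _
    have b5 : (t (j + 1) : ℝ) ^ α ≤ K * (t j : ℝ) ^ α := by
      have : (t (j + 1) : ℝ) = K * (t j : ℝ) := by simp only [t]; push_cast; ring
      rw [this, Real.mul_rpow (by positivity) (by positivity)]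
      refine mul_le_mul_of_nonneg_right ?_ (by positivity)
      calc (K : ℝ) ^ α ≤ (K : ℝ) ^ (1 : ℝ) := Real.rpow_le_rpow_of_exponent_le hKr hα1.le
        _ = K := Real.rpow_one _
    have hKj : (1 : ℝ) ≤ (K : ℝ) ^ (j + 1) := one_le_pow₀ hKr
    have b6 : e ^ (2 * k) * (N * (K : ℝ) ^ (j + 1)) ≤
        (K * (2 * (k + 1))) * (G * (t j : ℝ) ^ α) * (K : ℝ) ^ (j + 1) := by
      have hG : (0 : ℝ) ≤ G := by positivity
      have ht : (t (j + 1) : ℝ) = N * (K : ℝ) ^ (j + 1) := by simp only [t]; push_cast; ring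
      calc e ^ (2 * k) * (N * (K : ℝ) ^ (j + 1))
          = (e * (t (j + 1) : ℝ) ^ β) ^ (2 * k) * (t (j + 1) : ℝ) ^ α := by
            rw [mul_pow, mul_assoc, hpb, ht]
        _ ≤ (2 * (k * K ^ (j + 1) + 1) * G) * (K * (t j : ℝ) ^ α) := by
            refine mul_le_mul (b4.trans b3) b5 (by positivity) (by positivity)
        _ ≤ (2 * (k * K ^ (j + 1) + K ^ (j + 1)) * G) * (K * (t j : ℝ) ^ α) := by gcongr
        _ = _ := by ring
    rw [← mul_assoc] at b6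
    have b7 := le_of_mul_le_mul_right b6 (by positivity)
    rw [hδ, div_mul_eq_mul_div, div_le_iff₀ (by positivity)]
    linarith
  have mu := multi hα hk hS (Finset.range J) P (fun j => (t j : ℝ)) N N (by positivity)
    (by positivity) (fun _ _ => by positivity)
    (by
      intro j hj
      have hj' : j ≤ J := (Finset.mem_range.1 hj).le
      have a1 : (t j : ℝ) ^ α ≤ (t J : ℝ) ^ α :=
        Real.rpow_le_rpow (by positivity) (by exact_mod_cast tmono j J hj') hα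
      have a2 : (t J : ℝ) = N * (K : ℝ) ^ J := by simp only [t]; push_cast; ring
      have a3 : ((K : ℝ) ^ J) ^ α ≤ (K : ℝ) ^ J := by
        calc ((K : ℝ) ^ J) ^ α ≤ ((K : ℝ) ^ J) ^ (1 : ℝ) :=
              Real.rpow_le_rpow_of_exponent_le (one_le_pow₀ hKr) hα1.le
          _ = _ := Real.rpow_one _
      calc (t j : ℝ) ^ α ≤ (t J : ℝ) ^ α := a1
        _ = (N : ℝ) ^ α * ((K : ℝ) ^ J) ^ α := by
            rw [a2, Real.mul_rpow (by positivity) (by positivity)]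
        _ ≤ (N : ℝ) ^ α * (N : ℝ) ^ β :=
            mul_le_mul_of_nonneg_left (a3.trans hN1) (by positivity)
        _ = (N : ℝ) ^ (α + β) := (Real.rpow_add (by linarith) _ _).symm
        _ ≤ (N : ℝ) ^ (1 : ℝ) := Real.rpow_le_rpow_of_exponent_le hNr (by linarith)
        _ = N := Real.rpow_one _)
    (fun j _ i z hz => by exact_mod_cast (mem_seg.1 (hPB j i hz)).1.1.le)
    (fun j _ i z hz => (mem_seg.1 (hPB j i hz)).2)
    (by
      intro j _ l _ i i' z h1 h2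
      have a1 := (mem_seg.1 (hPB j i h1)).1
      have a2 := (mem_seg.1 (hPB l i' h2)).1
      have hjl : j = l := by
        by_contra hne
        rcases Nat.lt_or_gt_of_ne hne with h | h
        · have := tmono (j + 1) l h; omega
        · have := tmono (l + 1) j h; omega
      subst hjl
      exact ⟨rfl, hPd j i i' z h1 h2⟩)
  have hsum := Finset.sum_le_sum hcontrib
  rw [Finset.sum_const, Finset.card_range, nsmul_eq_mul] at hsum
  rw [div_lt_iff₀ hδ0] at hJ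
  have : (J : ℝ) * (δ * N) ≤ 3 * N := by linarith
  nlinarith

end Pool.Agent.H15Z.SB
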